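import Mathlib

/-!
The space of finitely generated marked groups, condensed groups, quasi-isometry.
-/

set_option autoImplicit false

namespace Pool.Agent.H729Z.Cond

/-- `n`-generated marked groups: normal subgroups of the free group on `n` letters -/
def Marked (n : ℕ) : Type := {N : Subgroup (FreeGroup (Fin n)) // N.Normal}

open Classical in
/-- the topology induced from the product topology on two to the power of the free group -/
noncomputable instance (n : ℕ) : TopologicalSpace (Marked n) :=
  TopologicalSpace.induced (fun (N : Marked n) (g : FreeGroup (Fin n)) => (decide (g ∈ N.1) : Bool))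
    inferInstance

instance (n : ℕ) (N : Marked n) : N.1.Normal := N.2

/-- the space of finitely generated marked groups: the topological disjoint union of the spaces
of `n`-generated marked groups, `n ≥ 1` -/
abbrev MarkedGroups : Type := Σ n : ℕ, Marked (n + 1)

/-- the isomorphism class of `G` in the space of marked groups -/
def isoClass (G : Type) [Group G] : Set MarkedGroups :=
  {x | Nonempty ((FreeGroup (Fin (x.1 + 1)) ⧸ x.2.1) ≃* G)}

/-- `G` is condensed: its isomorphism class has no isolated points -/
def Condensed (G : Type) [Group G] : Prop := Preperfect (isoClass G)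

/-- word length with respect to `S` -/
noncomputable def wordLength {G : Type} [Group G] (S : Finset G) (g : G) : ℕ :=
  sInf {n | ∃ l : List G, (∀ x ∈ l, x ∈ S ∨ x⁻¹ ∈ S) ∧ l.prod = g ∧ l.length = n}

/-- word metric with respect to `S` -/
noncomputable def wordDist {G : Type} [Group G] (S : Finset G) (g h : G) : ℕ :=
  wordLength S (g⁻¹ * h)

/-- for all finite generating sets the word metrics are quasi-isometric -/
def QuasiIsometric (G H : Type) [Group G] [Group H] : Prop :=
  ∀ (S : Finset G) (T : Finset H), Subgroup.closure (S : Set G) = ⊤ →
    Subgroup.closure (T : Set H) = ⊤ →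
    ∃ (f : G → H) (C : ℕ),
      (∀ a b, wordDist T (f a) (f b) ≤ C * wordDist S a b + C ∧
        wordDist S a b ≤ C * wordDist T (f a) (f b) + C) ∧
      ∀ h, ∃ a, wordDist T h (f a) ≤ C

end Pool.Agent.H729Z.Cond
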