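import Mathlib

/-!
Hall's group of triangular three by three matrices with one diagonal entry a power of a unit.
-/

set_option autoImplicit false

namespace Pool.Agent.H729Z.Cond

open LaurentPolynomial

/-- an exponential -/
structure Ex (A : Type) [CommRing A] where
  e : ℤ → A
  add : ∀ a b, e (a + b) = e a * e b
  zero : e 0 = 1

theorem Ex.neg_mul {A : Type} [CommRing A] (E : Ex A) (a : ℤ) : E.e (-a) * E.e a = 1 := by
  rw [← E.add]; simp [E.zero]

@[ext] structure Γ {A : Type} [CommRing A] (E : Ex A) where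
  n : ℤ
  u : A
  f : A
  c : A

section generic
variable {A : Type} [CommRing A] {E : Ex A}

instance : Mul (Γ E) :=
  ⟨fun x y => ⟨x.n + y.n, y.u + x.u * E.e y.n, x.f + E.e x.n * y.f, x.c + y.c + x.u * y.f⟩⟩
instance : One (Γ E) := ⟨⟨0, 0, 0, 0⟩⟩
instance : Inv (Γ E) :=
  ⟨fun x => ⟨-x.n, -(x.u * E.e (-x.n)), -(E.e (-x.n) * x.f), -x.c + x.u * E.e (-x.n) * x.f⟩⟩

@[simp] theorem mul_n (x y : Γ E) : (x * y).n = x.n + y.n := rfl
@[simp] theorem mul_u (x y : Γ E) : (x * y).u = y.u + x.u * E.e y.n := rfl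
@[simp] theorem mul_f (x y : Γ E) : (x * y).f = x.f + E.e x.n * y.f := rfl
@[simp] theorem mul_c (x y : Γ E) : (x * y).c = x.c + y.c + x.u * y.f := rfl
@[simp] theorem one_n : (1 : Γ E).n = 0 := rfl
@[simp] theorem one_u : (1 : Γ E).u = 0 := rfl
@[simp] theorem one_f : (1 : Γ E).f = 0 := rfl
@[simp] theorem one_c : (1 : Γ E).c = 0 := rfl
@[simp] theorem inv_n (x : Γ E) : (x⁻¹).n = -x.n := rfl
@[simp] theorem inv_u (x : Γ E) : (x⁻¹).u = -(x.u * E.e (-x.n)) := rfl
@[simp] theorem inv_f (x : Γ E) : (x⁻¹).f = -(E.e (-x.n) * x.f) := rfl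
@[simp] theorem inv_c (x : Γ E) : (x⁻¹).c = -x.c + x.u * E.e (-x.n) * x.f := rfl

instance : Group (Γ E) := Group.ofLeftAxioms
  (fun x y z => by
    ext1
    · simp [add_assoc]
    · simp only [mul_u, mul_n, E.add]; ring
    · simp only [mul_f, mul_n, E.add]; ring
    · simp only [mul_c, mul_f, mul_u]; ring)
  (fun x => by ext1 <;> simp [E.zero])
  (fun x => by
    ext1
    · simp
    · simp only [mul_u, inv_u, one_u]
      linear_combination (-x.u) * E.neg_mul x.n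
    · simp
    · simp)

theorem zpow_n (x : Γ E) (k : ℤ) : (x ^ k).n = k * x.n := by
  induction k using Int.induction_on with
  | zero => simp
  | succ k ih => rw [zpow_add_one, mul_n, ih]; ring
  | pred k ih => rw [zpow_sub_one, mul_n, ih, inv_n]; ring

/-- central elements -/
def z (E : Ex A) (c : A) : Γ E := ⟨0, 0, 0, c⟩

theorem z_add (c d : A) : z E (c + d) = z E c * z E d := by ext1 <;> simp [z]

/-- commutator of `x` with a conjugate of `y` -/
def cm {M : Type} [Group M] (x y s : M) : M := x * (s * y * s⁻¹) * x⁻¹ * (s * y * s⁻¹)⁻¹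

theorem map_cm {M M' : Type} [Group M] [Group M'] (θ : M →* M') (x y s : M) :
    θ (cm x y s) = cm (θ x) (θ y) (θ s) := by simp [cm]

theorem cm_eq (x y s : Γ E) (hx : x.n = 0) (hy : y.n = 0) :
    cm x y s = z E (x.u * y.f * E.e s.n - y.u * x.f * E.e (-s.n)) := by
  have h1 : (s * y * s⁻¹).n = 0 := by simp [hy]
  have h2 : (s * y * s⁻¹).u = y.u * E.e (-s.n) := by simp [hy, E.zero]; ring
  have h3 : (s * y * s⁻¹).f = E.e s.n * y.f := by
    simp only [mul_f, mul_n, inv_f, hy, add_zero]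
    linear_combination (-s.f) * E.neg_mul s.n
  unfold cm
  generalize s * y * s⁻¹ = w at h1 h2 h3
  ext1
  · simp [z, hx, h1]
  · simp [z, hx, h1, E.zero]
  · simp [z, hx, h1, E.zero]
  · simp [z, hx, h1, E.zero, h2, h3]; ring

/-- being central -/
def Cen (g : Γ E) : Prop := g.n = 0 ∧ g.u = 0 ∧ g.f = 0

theorem Cen.conj {x : Γ E} (h : Cen x) (g : Γ E) : g * x * g⁻¹ = x := by
  rw [mul_inv_eq_iff_eq_mul]
  ext1 <;> simp [h.1, h.2.1, h.2.2, add_comm, E.zero]

end generic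

abbrev R : Type := LaurentPolynomial (ZMod 2)

noncomputable def ER : Ex R := ⟨T, T_add, T_zero⟩

@[simp] theorem ER_e (n : ℤ) : ER.e n = T n := rfl

abbrev G0 : Type := Γ ER

theorem coeff_mul_T (w : R) (i j : ℤ) : (w * T i).coeff j = w.coeff (j - i) := by
  rw [T, AddMonoidAlgebra.coeff_mul_single_apply]; simp [sub_eq_add_neg]

/-- the central subgroup of elements supported in `X` -/
def K (X : Set ℤ) : Subgroup G0 where
  carrier := {g | Cen g ∧ ∀ j, j ∉ X → g.c.coeff j = 0}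
  one_mem' := ⟨⟨rfl, rfl, rfl⟩, by simp⟩
  mul_mem' := by
    rintro a b ⟨⟨ha1, ha2, ha3⟩, ha4⟩ ⟨⟨hb1, hb2, hb3⟩, hb4⟩
    exact ⟨⟨by simp [ha1, hb1], by simp [ha2, hb2], by simp [ha3, hb3]⟩,
      fun j hj => by simp [ha2, ha4 j hj, hb4 j hj]⟩
  inv_mem' := by
    rintro a ⟨⟨ha1, ha2, ha3⟩, ha4⟩
    exact ⟨⟨by simp [ha1], by simp [ha2], by simp [ha3]⟩, fun j hj => by simp [ha2, ha4 j hj]⟩

theorem mem_K {X : Set ℤ} {g : G0} : g ∈ K X ↔ Cen g ∧ ∀ j, j ∉ X → g.c.coeff j = 0 := Iff.rfl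

instance K_normal (X : Set ℤ) : (K X).Normal := ⟨fun a ha g => by rw [ha.1.conj]; exact ha⟩

theorem z_mem_K {X : Set ℤ} {c : R} : z ER c ∈ K X ↔ ∀ j, j ∉ X → c.coeff j = 0 :=
  ⟨fun h => h.2, fun h => ⟨⟨rfl, rfl, rfl⟩, h⟩⟩

theorem zT_mem_K {X : Set ℤ} {i : ℤ} : z ER (T i) ∈ K X ↔ i ∈ X := by
  rw [z_mem_K]
  constructor
  · intro h
    by_contra hi
    simpa using h i hi
  · intro h j hj
    have : i ≠ j := fun e => hj (e ▸ h)
    simp [this]

noncomputable def gx : G0 := ⟨0, 1, 0, 0⟩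
noncomputable def gy : G0 := ⟨0, 0, 1, 0⟩
noncomputable def gt : G0 := ⟨1, 0, 0, 0⟩

theorem gt_zpow (k : ℤ) : gt ^ k = ⟨k, 0, 0, 0⟩ := by
  induction k using Int.induction_on with
  | zero => rfl
  | succ k ih => rw [zpow_add_one, ih]; ext1 <;> simp [gt]
  | pred k ih => rw [zpow_sub_one, ih]; ext1 <;> simp [gt, sub_eq_add_neg]

theorem R_ind {P : R → Prop} (h0 : P 0) (hT : ∀ i, P (T i)) (hadd : ∀ a b, P a → P b → P (a + b))
    (w : R) : P w := by
  induction w using LaurentPolynomial.induction_on' with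
  | add a b ha hb => exact hadd a b ha hb
  | C_mul_T k a =>
    have : a = 0 ∨ a = 1 := by revert a; decide
    rcases this with rfl | rfl
    · simpa using h0
    · simpa using hT k

/-- a subgroup containing the generators up to central elements is everything -/
theorem eq_top_of (P : Subgroup G0) (h : ∀ g : G0, ∃ a ∈ P, Cen (a⁻¹ * g)) : P = ⊤ := by
  have hz : ∀ c, z ER c ∈ P := by
    refine R_ind P.one_mem (fun i => ?_) (fun a b ha hb => by rw [z_add]; exact P.mul_mem ha hb)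
    obtain ⟨x, hx, hx1, hx2, hx3⟩ := h gx
    obtain ⟨y, hy, hy1, hy2, hy3⟩ := h gy
    obtain ⟨s, hs, hs1, -, -⟩ := h (gt ^ i)
    have hxn : x.n = 0 := by simpa [gx] using hx1
    have hyn : y.n = 0 := by simpa [gy] using hy1
    have hsn : s.n = i := by rw [gt_zpow] at hs1; simp at hs1; omega
    have hxu : x.u = 1 := by simp [gx, hxn] at hx2; linear_combination -hx2
    have hxf : x.f = 0 := by simpa [gx, hxn] using hx3
    have hyf : y.f = 1 := by simp [gy, hyn] at hy3; linear_combination -hy3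
    have h1 := cm_eq x y s hxn hyn
    rw [hxu, hxf, hyf, hsn] at h1
    simp only [ER_e, mul_zero, zero_mul, sub_zero, one_mul] at h1
    rw [← h1]
    have h2 : s * y * s⁻¹ ∈ P := P.mul_mem (P.mul_mem hs hy) (P.inv_mem hs)
    exact P.mul_mem (P.mul_mem (P.mul_mem hx h2) (P.inv_mem hx)) (P.inv_mem h2)
  rw [eq_top_iff]
  intro g _
  obtain ⟨a, ha, h1, h2, h3⟩ := h g
  have : a⁻¹ * g = z ER (a⁻¹ * g).c := Γ.ext h1 h2 h3 rfl
  have h4 := P.mul_mem ha (hz (a⁻¹ * g).c)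
  rwa [← this, mul_inv_cancel_left] at h4

abbrev F3 : Type := FreeGroup (Fin 3)

/-- the standard marking -/
noncomputable def φ : F3 →* G0 := FreeGroup.lift ![gx, gy, gt]

theorem φ_0 : φ (FreeGroup.of 0) = gx := by simp [φ]
theorem φ_1 : φ (FreeGroup.of 1) = gy := by simp [φ]
theorem φ_2 : φ (FreeGroup.of 2) = gt := by simp [φ]

theorem φ_surj : Function.Surjective φ := by
  rw [← MonoidHom.range_eq_top]
  have hx : gx ∈ φ.range := ⟨_, φ_0⟩
  have hy : gy ∈ φ.range := ⟨_, φ_1⟩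
  have ht : ∀ k : ℤ, gt ^ k ∈ φ.range := fun k => φ.range.zpow_mem ⟨_, φ_2⟩ k
  have hu : ∀ u : R, (⟨0, u, 0, 0⟩ : G0) ∈ φ.range := by
    refine R_ind φ.range.one_mem (fun i => ?_) (fun a b ha hb => ?_)
    · convert φ.range.mul_mem (φ.range.mul_mem (ht (-i)) hx) (ht i) using 1
      rw [gt_zpow, gt_zpow]; ext1 <;> simp [gx]
    · convert φ.range.mul_mem ha hb using 1
      ext1 <;> simp [add_comm]
  have hf : ∀ f : R, (⟨0, 0, f, 0⟩ : G0) ∈ φ.range := by
    refine R_ind φ.range.one_mem (fun i => ?_) (fun a b ha hb => ?_)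
    · convert φ.range.mul_mem (φ.range.mul_mem (ht i) hy) (ht (-i)) using 1
      rw [gt_zpow, gt_zpow]; ext1 <;> simp [gy]
    · convert φ.range.mul_mem ha hb using 1
      ext1 <;> simp
  refine eq_top_of _ fun g => ⟨⟨g.n, g.u, g.f, 0⟩, ?_, ?_⟩
  · convert φ.range.mul_mem (φ.range.mul_mem (hf g.f) (ht g.n)) (hu g.u) using 1
    rw [gt_zpow]; ext1 <;> simp
  · have : g = (⟨g.n, g.u, g.f, 0⟩ : G0) * z ER g.c := by ext1 <;> simp [z]
    conv => enter [1, 2]; rw [this]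
    rw [inv_mul_cancel_left]
    exact ⟨rfl, rfl, rfl⟩

end Pool.Agent.H729Z.Cond
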