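import Pool.Agent.H729Z.Cond.Defs

/-!
A surjective homomorphism with finite kernel is a quasi-isometry.
-/

set_option autoImplicit false

namespace Pool.Agent.H729Z.Cond

variable {G H : Type} [Group G] [Group H]

theorem wl_le (S : Finset G) (l : List G) (hl : ∀ x ∈ l, x ∈ S ∨ x⁻¹ ∈ S) :
    wordLength S l.prod ≤ l.length := Nat.sInf_le ⟨l, hl, rfl, rfl⟩

theorem wl_spec {S : Finset G} (hS : Subgroup.closure (S : Set G) = ⊤) (g : G) :
    ∃ l : List G, (∀ x ∈ l, x ∈ S ∨ x⁻¹ ∈ S) ∧ l.prod = g ∧ l.length = wordLength S g := by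
  have h1 : g ∈ (Subgroup.closure (S : Set G)).toSubmonoid := by rw [hS]; trivial
  rw [Subgroup.closure_toSubmonoid] at h1
  obtain ⟨l, h2, h3⟩ := Submonoid.exists_list_of_mem_closure h1
  exact Nat.sInf_mem (s := {n | ∃ l : List G, (∀ x ∈ l, x ∈ S ∨ x⁻¹ ∈ S) ∧ l.prod = g ∧ l.length = n})
    ⟨l.length, l, fun x hx => by simpa using h2 x hx, h3, rfl⟩

theorem wl_one (S : Finset G) : wordLength S 1 = 0 :=
  Nat.le_zero.1 (wl_le S [] (by simp))

theorem wl_mul {S : Finset G} (hS : Subgroup.closure (S : Set G) = ⊤) (a b : G) :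
    wordLength S (a * b) ≤ wordLength S a + wordLength S b := by
  obtain ⟨l, h1, h2, h3⟩ := wl_spec hS a
  obtain ⟨m, k1, k2, k3⟩ := wl_spec hS b
  have := wl_le S (l ++ m) (fun x hx => by
    rcases List.mem_append.1 hx with h | h
    · exact h1 x h
    · exact k1 x h)
  rwa [List.prod_append, h2, k2, List.length_append, h3, k3] at this

theorem bound_of_finite {α : Type} {s : Set α} (hs : s.Finite) (f : α → ℕ) : ∃ C, ∀ x ∈ s, f x ≤ C := by
  obtain ⟨C, hC⟩ := (hs.image f).bddAbove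
  exact ⟨C, fun x hx => hC ⟨x, hx, rfl⟩⟩

theorem fin_sym (S : Finset G) : {x : G | x ∈ S ∨ x⁻¹ ∈ S}.Finite :=
  (S.finite_toSet.union S.finite_toSet.inv).subset fun x hx => by simpa using hx

theorem qi_of_finite_ker (π : G →* H) (hπ : Function.Surjective π) (hk : (π.ker : Set G).Finite) :
    QuasiIsometric G H := by
  intro S T hS hT
  choose σ hσ using hπ
  obtain ⟨C1, h1⟩ := bound_of_finite (fin_sym S) (fun x => wordLength T (π x))
  obtain ⟨C2, h2⟩ := bound_of_finite (fin_sym T) (fun x => wordLength S (σ x))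
  obtain ⟨C3, h3⟩ := bound_of_finite hk (fun x => wordLength S x)
  have hup : ∀ l : List G, (∀ x ∈ l, x ∈ S ∨ x⁻¹ ∈ S) → wordLength T (π l.prod) ≤ C1 * l.length := by
    intro l
    induction l with
    | nil => intro _; simp [wl_one]
    | cons a l ih =>
      intro hl
      rw [List.prod_cons, map_mul, List.length_cons, Nat.mul_succ, add_comm]
      exact (wl_mul hT _ _).trans (add_le_add (h1 a (hl a (by simp)))
        (ih fun x hx => hl x (by simp [hx])))
  have hlo : ∀ l : List H, (∀ x ∈ l, x ∈ T ∨ x⁻¹ ∈ T) →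
      ∃ g, π g = l.prod ∧ wordLength S g ≤ C2 * l.length := by
    intro l
    induction l with
    | nil => intro _; exact ⟨1, by simp, by simp [wl_one]⟩
    | cons a l ih =>
      intro hl
      obtain ⟨g, hg1, hg2⟩ := ih fun x hx => hl x (by simp [hx])
      refine ⟨σ a * g, by rw [map_mul, hσ, hg1, List.prod_cons], ?_⟩
      rw [List.length_cons, Nat.mul_succ, add_comm]
      exact (wl_mul hS _ _).trans (add_le_add (h2 a (hl a (by simp))) hg2)
  refine ⟨π, C1 + C2 + C3, fun a b => ⟨?_, ?_⟩, fun h => ⟨σ h, by simp [wordDist, hσ, wl_one]⟩⟩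
  · obtain ⟨l, k1, k2, k3⟩ := wl_spec hS (a⁻¹ * b)
    have := hup l k1
    rw [k2, k3, map_mul, map_inv] at this
    unfold wordDist
    nlinarith [Nat.zero_le (wordLength S (a⁻¹ * b))]
  · obtain ⟨l, k1, k2, k3⟩ := wl_spec hT ((π a)⁻¹ * π b)
    obtain ⟨g, hg1, hg2⟩ := hlo l k1
    rw [k3] at hg2
    have hker : g⁻¹ * (a⁻¹ * b) ∈ π.ker := by
      rw [MonoidHom.mem_ker, map_mul, map_inv, hg1, k2, map_mul, map_inv, inv_mul_cancel]
    have h4 := wl_mul hS g (g⁻¹ * (a⁻¹ * b))
    rw [mul_inv_cancel_left] at h4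
    have h5 := h3 _ hker
    unfold wordDist
    nlinarith [Nat.zero_le (wordLength T ((π a)⁻¹ * π b))]

end Pool.Agent.H729Z.Cond
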