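import Pool.Agent.H729Z.Cond.Rigid
import Pool.Agent.H729Z.Cond.QI

/-!
A condensed group with a quotient by a finite subgroup which is not condensed.
-/

set_option autoImplicit false

namespace Pool.Agent.H729Z.Cond

open LaurentPolynomial Filter Topology

theorem X0_shift (s : ℕ) (j : ℤ) (hj : |j| < 4 ^ s) : j + 4 ^ s ∈ X0 ↔ j ∈ X0 := by
  have key : ∀ r : ℕ, r < s → ∃ m : ℤ, (4 : ℤ) ^ s = 2 * 4 ^ r * (2 * m) := by
    intro r hr
    obtain ⟨d, rfl⟩ := Nat.exists_eq_add_of_lt hr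
    exact ⟨4 ^ d, by ring⟩
  rw [abs_lt] at hj
  constructor
  · rintro ⟨r, l, h⟩
    by_cases hr : r < s
    · obtain ⟨m, hm⟩ := key r hr
      exact ⟨r, l - m, by linear_combination h - hm⟩
    · exfalso
      obtain ⟨d, rfl⟩ := Nat.exists_eq_add_of_le (not_lt.1 hr)
      have h1 : (2 * 4 ^ s : ℤ) ∣ j + 4 ^ s := ⟨4 ^ d * (2 * l + 1), by rw [h]; ring⟩
      have := Int.le_of_dvd (by linarith) h1
      linarith
  · rintro ⟨r, l, h⟩
    have hr : r < s := by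
      by_contra hr
      obtain ⟨d, rfl⟩ := Nat.exists_eq_add_of_le (not_lt.1 hr)
      have h1 : (4 ^ s : ℤ) ∣ j := ⟨2 * 4 ^ d * (2 * l + 1), by rw [h]; ring⟩
      have h2 : j = 0 := Int.eq_zero_of_abs_lt_dvd h1 (abs_lt.2 hj)
      exact zero_not_X0 ⟨s + d, l, h2 ▸ h⟩
    obtain ⟨m, hm⟩ := key r hr
    exact ⟨r, l + m, by linear_combination h + hm⟩

/-- the shifted set -/
def Xs (s : ℕ) : Set ℤ := {j | j + 4 ^ s ∈ X0}

theorem four_mem_Xs (s : ℕ) : (4 : ℤ) ^ s ∈ Xs s := ⟨s, 0, by ring⟩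

theorem four_not_X0 (s : ℕ) : (4 : ℤ) ^ s ∉ X0 := fun h =>
  zero_not_X0 ((X0_shift s 0 (by simp)).1 (by simpa using h))

/-- the scaling automorphism -/
noncomputable def sc (k : ℤ) : G0 ≃* G0 where
  toFun g := ⟨g.n, g.u * T k, g.f, g.c * T k⟩
  invFun g := ⟨g.n, g.u * T (-k), g.f, g.c * T (-k)⟩
  left_inv g := by ext1 <;> simp
  right_inv g := by ext1 <;> simp
  map_mul' x y := by
    ext1
    · rfl
    · simp only [mul_u, ER_e]; ring
    · rfl
    · simp only [mul_c]; ring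

theorem sc_mem (s : ℕ) (g : G0) : sc (4 ^ s) g ∈ K X0 ↔ g ∈ K (Xs s) := by
  have h1 : g.u * T (4 ^ s) = 0 ↔ g.u = 0 := (isUnit_T _).mul_left_eq_zero
  show (g.n = 0 ∧ g.u * T (4 ^ s) = 0 ∧ g.f = 0) ∧ (∀ j, j ∉ X0 → (g.c * T (4 ^ s)).coeff j = 0) ↔
    (g.n = 0 ∧ g.u = 0 ∧ g.f = 0) ∧ (∀ j, j ∉ Xs s → g.c.coeff j = 0)
  rw [h1]
  refine and_congr_right fun _ => ⟨fun h j hj => ?_, fun h j hj => ?_⟩
  · have := h _ hj
    rwa [coeff_mul_T, add_sub_cancel_right] at this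
  · rw [coeff_mul_T]
    exact h _ (by simpa [Xs] using hj)

theorem eventually_mem (g : G0) : ∀ᶠ s in atTop, g ∈ K (Xs s) ↔ g ∈ K X0 := by
  obtain ⟨B, hB⟩ := bound_of_finite g.c.coeff.support.finite_toSet Int.natAbs
  filter_upwards [eventually_ge_atTop B] with s hs
  have h1 : ∀ j, g.c.coeff j ≠ 0 → (j ∈ Xs s ↔ j ∈ X0) := by
    intro j hj
    refine X0_shift s j ?_
    have h2 := hB j (Finsupp.mem_support_iff.2 hj)
    have h3 : s < 4 ^ s := Nat.lt_pow_self (by norm_num)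
    rw [Int.abs_eq_natAbs]
    exact_mod_cast lt_of_le_of_lt (h2.trans hs) h3
  refine and_congr_right fun _ => forall_congr' fun j => ?_
  by_cases hj : g.c.coeff j = 0
  · simp [hj]
  · rw [h1 j hj]

theorem exists_lift (X : Set ℤ) {n : ℕ} (N : Marked n)
    (e : (FreeGroup (Fin n) ⧸ N.1) ≃* (G0 ⧸ K X)) :
    ∃ π : FreeGroup (Fin n) →* G0, Function.Surjective π ∧ ∀ w, π w ∈ K X ↔ w ∈ N.1 := by
  choose a ha using fun i : Fin n =>
    QuotientGroup.mk_surjective (e (QuotientGroup.mk (FreeGroup.of i)))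
  have h1 : (QuotientGroup.mk' (K X)).comp (FreeGroup.lift a) =
      e.toMonoidHom.comp (QuotientGroup.mk' N.1) :=
    FreeGroup.ext_hom _ _ fun i => by simpa using ha i
  have h2 : ∀ w, (QuotientGroup.mk (FreeGroup.lift a w) : G0 ⧸ K X) = e (QuotientGroup.mk w) :=
    fun w => DFunLike.congr_fun h1 w
  refine ⟨FreeGroup.lift a, ?_, fun w => ?_⟩
  · rw [← MonoidHom.range_eq_top]
    refine eq_top_of _ fun g => ?_
    obtain ⟨w, hw⟩ := QuotientGroup.mk_surjective (e.symm (QuotientGroup.mk g))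
    refine ⟨_, ⟨w, rfl⟩, ?_⟩
    have h3 := h2 w
    rw [hw, e.apply_symm_apply, QuotientGroup.eq] at h3
    exact h3.1
  · rw [← QuotientGroup.eq_one_iff, h2, map_eq_one_iff _ e.injective, QuotientGroup.eq_one_iff]

theorem iso_of_surj {M : Type} [Group M] (π : M →* G0) (hπ : Function.Surjective π) (P : Subgroup G0)
    [P.Normal] : Nonempty ((M ⧸ P.comap π) ≃* (G0 ⧸ P)) := by
  have h1 : Function.Surjective ((QuotientGroup.mk' P).comp π) :=
    (QuotientGroup.mk'_surjective P).comp hπ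
  refine ⟨(QuotientGroup.quotientMulEquivOfEq ?_).trans
    (QuotientGroup.quotientKerEquivOfSurjective _ h1)⟩
  rw [← MonoidHom.comap_ker, QuotientGroup.ker_mk']

theorem condensed_G : Condensed (G0 ⧸ K X0) := by
  classical
  rintro ⟨n, N⟩ ⟨e⟩
  obtain ⟨π, hπ, hN⟩ := exists_lift X0 N e
  let Ns : ℕ → Marked (n + 1) := fun s => ⟨(K (Xs s)).comap π, inferInstance⟩
  have hlim : Tendsto Ns atTop (𝓝 N) := by
    rw [nhds_induced, tendsto_comap_iff, tendsto_pi_nhds]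
    intro w
    refine tendsto_const_nhds.congr' ?_
    filter_upwards [eventually_mem (π w)] with s hs
    show decide (w ∈ N.1) = decide (π w ∈ K (Xs s))
    rw [hs, hN]
  have hlim' : Tendsto (fun s => (⟨n, Ns s⟩ : MarkedGroups)) atTop (𝓝 ⟨n, N⟩) :=
    ((continuous_sigmaMk (σ := fun n => Marked (n + 1)) (i := n)).tendsto N).comp hlim
  rw [accPt_iff_frequently]
  refine hlim'.frequently (Frequently.of_forall fun s => ⟨?_, ?_⟩)
  · intro h
    have h1 : Ns s = N := sigma_mk_injective (β := fun n => Marked (n + 1)) h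
    obtain ⟨w, hw⟩ := hπ (z ER (T (4 ^ s)))
    have h2 : w ∈ (Ns s).1 := by
      show π w ∈ K (Xs s)
      rw [hw, zT_mem_K]; exact four_mem_Xs s
    rw [h1, ← hN, hw, zT_mem_K] at h2
    exact four_not_X0 s h2
  · have h1 : (K (Xs s)).comap π = (K X0).comap ((sc (4 ^ s)).toMonoidHom.comp π) := by
      ext w
      exact (sc_mem s (π w)).symm
    obtain ⟨e'⟩ := iso_of_surj ((sc (4 ^ s)).toMonoidHom.comp π) ((sc (4 ^ s)).surjective.comp hπ) (K X0)
    exact ⟨(QuotientGroup.quotientMulEquivOfEq h1).trans e'⟩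

theorem eventually_iff {n : ℕ} (N : Marked n) (w : FreeGroup (Fin n)) :
    ∀ᶠ M in 𝓝 N, (w ∈ M.1 ↔ w ∈ N.1) := by
  classical
  have h1 : Continuous fun M : Marked n => (decide (w ∈ M.1) : Bool) :=
    (continuous_apply w).comp (continuous_induced_dom
      (f := fun (N : Marked n) (g : FreeGroup (Fin n)) => (decide (g ∈ N.1) : Bool)))
  have h2 := (h1.tendsto N) (IsOpen.mem_nhds (isOpen_discrete {decide (w ∈ N.1)}) rfl)
  filter_upwards [h2] with M hM
  simpa using hM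

theorem not_condensed_H : ¬ Condensed (G0 ⧸ K X1) := by
  intro h
  let N0 : Marked (2 + 1) := ⟨(K X1).comap φ, inferInstance⟩
  have h1 := h ⟨2, N0⟩ (iso_of_surj φ φ_surj (K X1))
  rw [accPt_iff_frequently, Sigma.nhds_mk, frequently_map] at h1
  have hA := agree_φ
  have h2 : ∀ᶠ M : Marked (2 + 1) in 𝓝 N0, ∀ π : F3 →* G0, (∀ w, π w ∈ K X1 ↔ w ∈ M.1) → Agree π := by
    have e3 := (eventually_all_finset ({1, 2, 3} : Finset ℤ)).2 fun i _ =>
      eventually_iff N0 (cm (FreeGroup.of 0) (FreeGroup.of 0) (FreeGroup.of 2 ^ i))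
    have e4 := (eventually_all_finset ({1, 2, 3} : Finset ℤ)).2 fun i _ =>
      eventually_iff N0 (cm (FreeGroup.of 1) (FreeGroup.of 1) (FreeGroup.of 2 ^ i))
    have e5 := (eventually_all_finset ({1, 2, -1, -2} : Finset ℤ)).2 fun i _ =>
      eventually_iff N0 (cm (FreeGroup.of 0) (FreeGroup.of 1) (FreeGroup.of 2 ^ i))
    filter_upwards [eventually_iff N0 (FreeGroup.of 0 ^ 2), eventually_iff N0 (FreeGroup.of 1 ^ 2),
      e3, e4, e5, eventually_iff N0 (cm (FreeGroup.of 0) (FreeGroup.of 1) (FreeGroup.of 2 ^ (0 : ℤ)))]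
      with M a1 a2 a3 a4 a5 a6 π hπ
    exact ⟨(hπ _).2 (a1.2 hA.1), (hπ _).2 (a2.2 hA.2.1),
      fun i hi => (hπ _).2 ((a3 i hi).2 (hA.2.2.1 i hi)),
      fun i hi => (hπ _).2 ((a4 i hi).2 (hA.2.2.2.1 i hi)),
      fun i hi => (hπ _).2 ((a5 i hi).2 (hA.2.2.2.2.1 i hi)),
      fun hh => hA.2.2.2.2.2 (a6.1 ((hπ _).1 hh))⟩
  obtain ⟨M, ⟨hne, ⟨e⟩⟩, hM⟩ := (h1.and_eventually h2).exists
  obtain ⟨π, hπ, hN⟩ := exists_lift X1 M e
  apply hne
  congr 1
  refine Subtype.ext (Subgroup.ext fun w => ?_)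
  rw [← hN]
  obtain ⟨v, hv⟩ := hπ gt
  exact rigid π (hM π hN) ⟨v, by rw [hv]; rfl⟩ w

theorem K_le : K X0 ≤ K X1 := fun _ hg => ⟨hg.1, fun j hj => hg.2 j fun h => hj (Or.inl h)⟩

theorem qi_GH : QuasiIsometric (G0 ⧸ K X0) (G0 ⧸ K X1) := by
  refine qi_of_finite_ker (QuotientGroup.map (K X0) (K X1) (MonoidHom.id _) K_le) ?_ ?_
  · intro y
    obtain ⟨g, rfl⟩ := QuotientGroup.mk_surjective y
    exact ⟨QuotientGroup.mk g, rfl⟩
  · refine (Set.finite_range fun p : ZMod 2 × ZMod 2 =>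
      (QuotientGroup.mk (z ER (C p.1 * T 1 + C p.2 * T (-1))) : G0 ⧸ K X0)).subset ?_
    intro y hy
    obtain ⟨g, rfl⟩ := QuotientGroup.mk_surjective y
    have hg : g ∈ K X1 := (QuotientGroup.eq_one_iff g).1 hy
    refine ⟨(g.c.coeff 1, g.c.coeff (-1)), QuotientGroup.eq.2 ?_⟩
    obtain ⟨⟨h1, h2, h3⟩, h4⟩ := hg
    refine ⟨⟨by simp [z, h1], by simp [z, h2], by simp [z, h3]⟩, fun j hj => ?_⟩
    simp only [z, mul_c, inv_c, inv_u, zero_mul, neg_zero, add_zero, AddMonoidAlgebra.coeff_add,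
      AddMonoidAlgebra.coeff_neg, Finsupp.coe_add, Finsupp.coe_neg, Pi.add_apply, Pi.neg_apply,
      coeff_mul_T, C_apply]
    by_cases e1 : j = 1
    · subst e1; simp [CharTwo.add_self_eq_zero]
    · by_cases e2 : j = -1
      · subst e2; simp [CharTwo.add_self_eq_zero]
      · have : j ∉ X1 := by rintro (h | h | h) <;> contradiction
        rw [h4 j this, if_neg (by omega), if_neg (by omega)]; simp

theorem fg_quot (X : Set ℤ) : Group.FG (G0 ⧸ K X) :=
  Group.fg_of_surjective (f := (QuotientGroup.mk' (K X)).comp φ)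
    ((QuotientGroup.mk'_surjective _).comp φ_surj)

end Pool.Agent.H729Z.Cond
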