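import Pool.Agent.H729Z.Cond.Grp

/-!
Rigidity of the standard marking of the quotient with a unique local pattern.
-/

set_option autoImplicit false

namespace Pool.Agent.H729Z.Cond

open LaurentPolynomial

/-- integers with odd two-adic valuation -/
def X0 : Set ℤ := {j | ∃ (r : ℕ) (l : ℤ), j = 2 * 4 ^ r * (2 * l + 1)}

def X1 : Set ℤ := {j | j ∈ X0 ∨ j = 1 ∨ j = -1}

theorem X0_even {j : ℤ} (h : j ∈ X0) : j % 2 = 0 := by
  obtain ⟨r, l, rfl⟩ := h
  rw [mul_assoc]; simp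

theorem zero_not_X0 : (0 : ℤ) ∉ X0 := by
  rintro ⟨r, l, h⟩
  have h1 : (2 : ℤ) * 4 ^ r ≠ 0 := by positivity
  have h2 : 2 * l + 1 ≠ 0 := by omega
  exact mul_ne_zero h1 h2 h.symm

theorem X0_neg {j : ℤ} (h : j ∈ X0) : -j ∈ X0 := by
  obtain ⟨r, l, rfl⟩ := h
  exact ⟨r, -l - 1, by ring⟩

theorem two_X0 : (2 : ℤ) ∈ X0 := ⟨0, 0, by norm_num⟩

theorem X1_neg {j : ℤ} (h : j ∈ X1) : -j ∈ X1 := by
  rcases h with h | h | h
  · exact Or.inl (X0_neg h)
  · exact Or.inr (Or.inr (by omega))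
  · exact Or.inr (Or.inl (by omega))

theorem X1_cases {j : ℤ} (h : j ∈ X1) : (j % 2 = 0 ∧ j ≠ 0) ∨ j = 1 ∨ j = -1 := by
  rcases h with h | h | h
  · exact Or.inl ⟨X0_even h, fun e => zero_not_X0 (e ▸ h)⟩
  · exact Or.inr (Or.inl h)
  · exact Or.inr (Or.inr h)

theorem zero_not_X1 : (0 : ℤ) ∉ X1 := fun h => by have := X1_cases h; omega

abbrev 𝕂 : Type := FractionRing R

noncomputable def ρ : R →+* 𝕂 := algebraMap R 𝕂

theorem ρ_inj : Function.Injective ρ := IsFractionRing.injective R 𝕂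

noncomputable def EK : Ex 𝕂 := ⟨fun n => ρ (T n), fun a b => by rw [T_add, map_mul], by simp⟩

@[simp] theorem EK_e (n : ℤ) : EK.e n = ρ (T n) := rfl

noncomputable def ι : G0 →* Γ EK where
  toFun g := ⟨g.n, ρ g.u, ρ g.f, ρ g.c⟩
  map_one' := by ext1 <;> simp
  map_mul' x y := by ext1 <;> simp [mul_comm]

/-- evaluation at one -/
noncomputable def ev : R →+* 𝕂 := LaurentPolynomial.eval₂ (ρ.comp C) 1

theorem ev_T (n : ℤ) : ev (T n) = 1 := by simp [ev]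

noncomputable def Θ (a b : R) (c1 c2 c3 : 𝕂) : G0 →* Γ EK where
  toFun g := ⟨g.n, ρ (a * g.u), ρ (b * g.f), ρ (a * b * g.c) + g.n * c3 + ev g.u * c1 + ev g.f * c2⟩
  map_one' := by ext1 <;> simp
  map_mul' x y := by
    ext1
    · simp
    · simp only [mul_u, ER_e, EK_e, map_add, map_mul, mul_add]; ring
    · simp only [mul_f, ER_e, EK_e, map_add, map_mul, mul_add]; ring
    · simp only [mul_c, mul_n, mul_u, mul_f, ER_e, map_add, map_mul, mul_add, ev_T]; push_cast; ring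

theorem T_sub_one_ne : ρ (T 1) - 1 ≠ 0 := by
  intro h
  have h1 : ρ (T 1) = ρ 1 := by rw [map_one]; linear_combination h
  have h2 := congrArg (fun w : R => w.coeff 1) (ρ_inj h1)
  rw [← T_zero] at h2
  simp only [T_apply] at h2
  simp at h2

theorem core (ψ : F3 →* G0) (hx : (ψ (FreeGroup.of 0)).n = 0) (hxf : (ψ (FreeGroup.of 0)).f = 0)
    (hy : (ψ (FreeGroup.of 1)).n = 0) (hyu : (ψ (FreeGroup.of 1)).u = 0)
    (ht : (ψ (FreeGroup.of 2)).n = 1)
    (hab : (ψ (FreeGroup.of 0)).u * (ψ (FreeGroup.of 1)).f = 1) (X : Set ℤ) (w : F3) :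
    ψ w ∈ K X ↔ φ w ∈ K X := by
  set x := ψ (FreeGroup.of 0) with hxd
  set y := ψ (FreeGroup.of 1) with hyd
  set t := ψ (FreeGroup.of 2) with htd
  let h : Γ EK := ⟨0, -ρ t.u / (ρ (T 1) - 1), ρ t.f / (ρ (T 1) - 1), 0⟩
  have key : (MulAut.conj h).toMonoidHom.comp (ι.comp ψ) =
      (Θ x.u y.f (h * ι x * h⁻¹).c (h * ι y * h⁻¹).c (h * ι t * h⁻¹).c).comp φ := by
    refine FreeGroup.ext_hom _ _ fun i => ?_
    have hne := T_sub_one_ne
    fin_cases i
    · show h * ι x * h⁻¹ = Θ _ _ _ _ _ (φ (FreeGroup.of 0))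
      rw [φ_0]
      ext1 <;> simp [Θ, ι, h, gx, hx, hxf]
    · show h * ι y * h⁻¹ = Θ _ _ _ _ _ (φ (FreeGroup.of 1))
      rw [φ_1]
      ext1 <;> simp [Θ, ι, h, gy, hy, hyu]
    · show h * ι t * h⁻¹ = Θ _ _ _ _ _ (φ (FreeGroup.of 2))
      rw [φ_2]
      ext1
      · simp [Θ, ι, h, gt, ht]
      · simp [Θ, ι, h, gt, ht]; field_simp; ring
      · simp [Θ, ι, h, gt, ht]; field_simp; ring
      · simp [Θ, gt]
  have k1 : h * ι (ψ w) * h⁻¹ = Θ x.u y.f (h * ι x * h⁻¹).c (h * ι y * h⁻¹).c (h * ι t * h⁻¹).c (φ w) :=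
    DFunLike.congr_fun key w
  have ha : x.u ≠ 0 := left_ne_zero_of_mul_eq_one hab
  have hb : y.f ≠ 0 := right_ne_zero_of_mul_eq_one hab
  have fin : Cen (φ w) → ψ w = φ w := by
    rintro ⟨h1, h2, h3⟩
    have k2 : Θ x.u y.f (h * ι x * h⁻¹).c (h * ι y * h⁻¹).c (h * ι t * h⁻¹).c (φ w) = ι (φ w) := by
      ext1 <;> simp [Θ, ι, h1, h2, h3, hab]
    have k3 : Cen (ι (φ w)) := ⟨h1, by simp [ι, h2], by simp [ι, h3]⟩
    have k4 : ι (ψ w) = ι (φ w) := by
      rw [← k3.conj h⁻¹, ← k2, ← k1]; group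
    exact Γ.ext (congrArg (fun g : Γ EK => g.n) k4) (ρ_inj (congrArg Γ.u k4)) (ρ_inj (congrArg Γ.f k4))
      (ρ_inj (congrArg Γ.c k4))
  constructor
  · intro hw
    obtain ⟨h1, h2, h3⟩ := hw.1
    have k3 : Cen (ι (ψ w)) := ⟨h1, by simp [ι, h2], by simp [ι, h3]⟩
    rw [k3.conj] at k1
    have e1 : (φ w).n = 0 := by rw [← h1]; exact (congrArg Γ.n k1).symm
    have e2 : x.u * (φ w).u = 0 := by rw [← h2]; exact (ρ_inj (congrArg Γ.u k1)).symm
    have e3 : y.f * (φ w).f = 0 := by rw [← h3]; exact (ρ_inj (congrArg Γ.f k1)).symm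
    rw [← fin ⟨e1, (mul_eq_zero.1 e2).resolve_left ha, (mul_eq_zero.1 e3).resolve_left hb⟩]
    exact hw
  · intro hw
    rw [fin hw.1]; exact hw

/-- the finitely many test words -/
def Agree (ψ : F3 →* G0) : Prop :=
  ψ (FreeGroup.of 0 ^ 2) ∈ K X1 ∧ ψ (FreeGroup.of 1 ^ 2) ∈ K X1 ∧
  (∀ i ∈ ({1, 2, 3} : Finset ℤ), ψ (cm (FreeGroup.of 0) (FreeGroup.of 0) (FreeGroup.of 2 ^ i)) ∈ K X1) ∧
  (∀ i ∈ ({1, 2, 3} : Finset ℤ), ψ (cm (FreeGroup.of 1) (FreeGroup.of 1) (FreeGroup.of 2 ^ i)) ∈ K X1) ∧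
  (∀ i ∈ ({1, 2, -1, -2} : Finset ℤ), ψ (cm (FreeGroup.of 0) (FreeGroup.of 1) (FreeGroup.of 2 ^ i)) ∈ K X1) ∧
  ψ (cm (FreeGroup.of 0) (FreeGroup.of 1) (FreeGroup.of 2 ^ (0 : ℤ))) ∉ K X1

theorem Agree.comp {ψ : F3 →* G0} (h : Agree ψ) (θ : G0 →* G0) (hθ : ∀ g, θ g ∈ K X1 ↔ g ∈ K X1) :
    Agree (θ.comp ψ) := by
  unfold Agree at h ⊢
  simpa only [MonoidHom.comp_apply, hθ] using h

theorem core1 (ψ : F3 →* G0) (hA : Agree ψ) (hx : (ψ (FreeGroup.of 0)).n = 0)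
    (hxf : (ψ (FreeGroup.of 0)).f = 0)
    (hy : (ψ (FreeGroup.of 1)).n = 0) (hyu : (ψ (FreeGroup.of 1)).u = 0)
    (ht : (ψ (FreeGroup.of 2)).n = 1) (w : F3) : ψ w ∈ K X1 ↔ φ w ∈ K X1 := by
  refine core ψ hx hxf hy hyu ht ?_ X1 w
  obtain ⟨-, -, -, -, h5, h6⟩ := hA
  have hc : ∀ i : ℤ, ψ (cm (FreeGroup.of 0) (FreeGroup.of 1) (FreeGroup.of 2 ^ i)) =
      z ER ((ψ (FreeGroup.of 0)).u * (ψ (FreeGroup.of 1)).f * T i) := by
    intro i
    rw [map_cm, cm_eq _ _ _ hx hy, map_zpow, zpow_n, ht, hyu]; simp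
  generalize (ψ (FreeGroup.of 0)).u * (ψ (FreeGroup.of 1)).f = v at hc
  simp only [hc, z_mem_K, coeff_mul_T] at h5 h6
  have hs : ∀ j, v.coeff j ≠ 0 → j = 0 := by
    intro j hj
    have hm : ∀ i ∈ ({1, 2, -1, -2} : Finset ℤ), j + i ∈ X1 := by
      intro i hi
      by_contra hn
      have := h5 i hi _ hn
      rw [add_sub_cancel_right] at this
      exact hj this
    have a1 := X1_cases (hm 1 (by simp))
    have a2 := X1_cases (hm 2 (by simp))
    have a3 := X1_cases (hm (-1) (by simp))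
    have a4 := X1_cases (hm (-2) (by simp))
    omega
  push Not at h6
  obtain ⟨j, -, hj⟩ := h6
  rw [sub_zero] at hj
  obtain rfl := hs j hj
  have h1 : v.coeff 0 = 1 := by
    generalize v.coeff 0 = a at hj
    revert a; decide
  rw [← T_zero]
  ext j
  by_cases h0 : j = 0
  · rw [h0, h1]; simp
  · have : v.coeff j = 0 := by by_contra hn; exact h0 (hs j hn)
    rw [this, T_apply, if_neg (fun e => h0 e.symm)]

noncomputable def Ainv : G0 →* G0 where
  toFun g := ⟨-g.n, invert g.u, invert g.f, invert g.c⟩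
  map_one' := by ext1 <;> simp
  map_mul' x y := by ext1 <;> simp [add_comm]

theorem Ainv_mem (g : G0) : Ainv g ∈ K X1 ↔ g ∈ K X1 := by
  simp only [mem_K, Cen, Ainv, MonoidHom.coe_mk, OneHom.coe_mk, neg_eq_zero, map_eq_zero_iff _ (invert).injective,
    invert_apply]
  refine and_congr_right fun _ => ⟨fun h j hj => ?_, fun h j hj => h _ fun hn => hj ?_⟩
  · simpa using h (-j) fun hn => hj (by simpa using X1_neg hn)
  · simpa using X1_neg hn

noncomputable def Bsw : G0 →* G0 where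
  toFun g := (⟨g.n, g.f, g.u, g.c⟩ : G0)⁻¹
  map_one' := by rw [inv_eq_one]; rfl
  map_mul' x y := by
    rw [← mul_inv_rev, inv_inj]
    ext1
    · simp [add_comm]
    · simp [mul_comm]
    · simp [mul_comm]
    · simp; ring

theorem Bsw_mem (g : G0) : Bsw g ∈ K X1 ↔ g ∈ K X1 := by
  show (⟨g.n, g.f, g.u, g.c⟩ : G0)⁻¹ ∈ K X1 ↔ _
  rw [inv_mem_iff]
  simp only [mem_K, Cen]
  tauto

theorem core2 (ψ : F3 →* G0) (hA : Agree ψ) (hx : (ψ (FreeGroup.of 0)).n = 0)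
    (hxf : (ψ (FreeGroup.of 0)).f = 0)
    (hy : (ψ (FreeGroup.of 1)).n = 0) (hyu : (ψ (FreeGroup.of 1)).u = 0)
    (ht : (ψ (FreeGroup.of 2)).n = 1 ∨ (ψ (FreeGroup.of 2)).n = -1) (w : F3) :
    ψ w ∈ K X1 ↔ φ w ∈ K X1 := by
  rcases ht with ht | ht
  · exact core1 ψ hA hx hxf hy hyu ht w
  · rw [← Ainv_mem]
    exact core1 (Ainv.comp ψ) (hA.comp _ Ainv_mem) (by simp [Ainv, hx]) (by simp [Ainv, hxf])
      (by simp [Ainv, hy]) (by simp [Ainv, hyu]) (by simp [Ainv, ht]) w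

theorem self_comm (x s : G0) (hx : x.n = 0) (hs : s.n = 1 ∨ s.n = -1)
    (h : ∀ i ∈ ({1, 2, 3} : Finset ℤ), cm x x (s ^ i) ∈ K X1) : x.u = 0 ∨ x.f = 0 := by
  rw [← mul_eq_zero]
  by_contra hne
  set v := x.u * x.f with hv
  have hsupp : v.coeff.support.Nonempty := by
    rw [Finsupp.support_nonempty_iff]
    intro h0
    apply hne
    ext j; rw [h0]; simp
  obtain ⟨d, hd, hmax⟩ := v.coeff.support.exists_max_image id hsupp
  have hd0 : v.coeff d ≠ 0 := Finsupp.mem_support_iff.1 hd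
  have hbig : ∀ j, d < j → v.coeff j = 0 := by
    intro j hj
    by_contra hn
    have := hmax j (Finsupp.mem_support_iff.2 hn)
    simp only [id] at this
    omega
  have hm : ∀ i ∈ ({1, 2, 3} : Finset ℤ), d + i ∈ X1 := by
    intro i hi
    have hi0 : 0 < i := by simp at hi; omega
    by_contra hn
    have h1 := h i hi
    rw [cm_eq _ _ _ hx hx, z_mem_K, zpow_n, ← hv] at h1
    have h2 := h1 _ hn
    simp only [ER_e, AddMonoidAlgebra.coeff_sub, Finsupp.coe_sub, Pi.sub_apply, coeff_mul_T] at h2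
    rcases hs with hs | hs
    · rw [hs, hbig (d + i - -(i * 1)) (by omega), show d + i - i * 1 = d by ring, sub_zero] at h2
      exact hd0 h2
    · rw [hs, hbig (d + i - i * -1) (by omega), show d + i - -(i * -1) = d by ring, zero_sub,
        neg_eq_zero] at h2
      exact hd0 h2
  have a1 := X1_cases (hm 1 (by simp))
  have a2 := X1_cases (hm 2 (by simp))
  have a3 := X1_cases (hm 3 (by simp))
  omega

theorem rigid (ψ : F3 →* G0) (hA : Agree ψ) (hdeg : ∃ w, (ψ w).n = 1) (w : F3) :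
    ψ w ∈ K X1 ↔ φ w ∈ K X1 := by
  have hx : (ψ (FreeGroup.of 0)).n = 0 := by
    have := hA.1.1.1
    rw [map_pow, pow_two, mul_n] at this
    omega
  have hy : (ψ (FreeGroup.of 1)).n = 0 := by
    have := hA.2.1.1.1
    rw [map_pow, pow_two, mul_n] at this
    omega
  have hdvd : ∀ w, (ψ (FreeGroup.of 2)).n ∣ (ψ w).n := by
    intro w
    induction w using FreeGroup.induction_on with
    | C1 => simp
    | of i =>
      fin_cases i
      · exact hx ▸ dvd_zero _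
      · exact hy ▸ dvd_zero _
      · exact dvd_rfl
    | inv_of i h => rw [map_inv, inv_n]; exact h.neg_right
    | mul a b ha hb => rw [map_mul, mul_n]; exact dvd_add ha hb
  have ht : (ψ (FreeGroup.of 2)).n = 1 ∨ (ψ (FreeGroup.of 2)).n = -1 := by
    obtain ⟨w, hw⟩ := hdeg
    have := hdvd w
    rw [hw] at this
    exact Int.isUnit_iff.1 (isUnit_of_dvd_one this)
  have h3 := self_comm _ _ hx ht (fun i hi => by simpa only [map_cm, map_zpow] using hA.2.2.1 i hi)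
  have h4 := self_comm _ _ hy ht (fun i hi => by simpa only [map_cm, map_zpow] using hA.2.2.2.1 i hi)
  have h6 := hA.2.2.2.2.2
  rw [map_cm, cm_eq _ _ _ hx hy] at h6
  rcases h3 with h3 | h3 <;> rcases h4 with h4 | h4
  · exact absurd (by rw [h3, h4]; simp [z_mem_K]) h6
  · rw [← Bsw_mem]
    exact core2 (Bsw.comp ψ) (hA.comp _ Bsw_mem) (by simp [Bsw, hx]) (by simp [Bsw, h3])
      (by simp [Bsw, hy]) (by simp [Bsw, h4]) (by rcases ht with ht | ht <;> simp [Bsw, ht]) w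
  · exact core2 ψ hA hx h3 hy h4 ht w
  · exact absurd (by rw [h3, h4]; simp [z_mem_K]) h6

theorem agree_φ : Agree φ := by
  have hc : ∀ (a b : G0) (i : ℤ), a.n = 0 → b.n = 0 →
      cm a b (gt ^ i) = z ER (a.u * b.f * T i - b.u * a.f * T (-i)) := by
    intro a b i ha hb
    rw [cm_eq _ _ _ ha hb, gt_zpow]; rfl
  have h2 : (1 : R) + 1 = 0 := by
    rw [← map_one (C : ZMod 2 →+* R), ← map_add]
    have : (1 : ZMod 2) + 1 = 0 := by decide
    rw [this, map_zero]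
  refine ⟨?_, ?_, fun i _ => ?_, fun i _ => ?_, fun i hi => ?_, ?_⟩
  · rw [map_pow, φ_0, pow_two]
    have : gx * gx = 1 := by ext1 <;> simp [gx, h2]
    rw [this]; exact (K X1).one_mem
  · rw [map_pow, φ_1, pow_two]
    have : gy * gy = 1 := by ext1 <;> simp [gy, h2]
    rw [this]; exact (K X1).one_mem
  · rw [map_cm, map_zpow, φ_0, φ_2, hc _ _ _ rfl rfl]
    simp [gx, z_mem_K]
  · rw [map_cm, map_zpow, φ_1, φ_2, hc _ _ _ rfl rfl]
    simp [gy, z_mem_K]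
  · rw [map_cm, map_zpow, φ_0, φ_1, φ_2, hc _ _ _ rfl rfl]
    simp only [gx, gy, mul_one, one_mul, mul_zero, zero_mul, sub_zero, zT_mem_K]
    simp only [Finset.mem_insert, Finset.mem_singleton] at hi
    rcases hi with rfl | rfl | rfl | rfl
    · exact Or.inr (Or.inl rfl)
    · exact Or.inl two_X0
    · exact Or.inr (Or.inr rfl)
    · exact Or.inl (X0_neg two_X0)
  · rw [map_cm, map_zpow, φ_0, φ_1, φ_2, hc _ _ _ rfl rfl]
    simp only [gx, gy, mul_one, one_mul, mul_zero, zero_mul, sub_zero, zT_mem_K]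
    exact zero_not_X1

end Pool.Agent.H729Z.Cond
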